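import Mathlib

set_option autoImplicit false

/-!
Statements of the parts of the proof for MP_f8f66f_co (line-switching game).
Points are indexed by a finite type `ι`, with coordinates `x y : ι → ℝ` and `x` injective
(this can be achieved by a shear, which preserves collinearity).
-/

namespace Pool.Agent.R94.LS

/-- Height over `t` of the (extended) segment from `e.1` to `e.2`. -/
noncomputable def ht {ι : Type*} (x y : ι → ℝ) (e : ι × ι) (t : ℝ) : ℝ :=
  y e.1 + (y e.2 - y e.1) / (x e.2 - x e.1) * (t - x e.1)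

/-- The edges `e` and `f` cross in a point which is interior to both. -/
def Crs {ι : Type*} (x y : ι → ℝ) (e f : ι × ι) : Prop :=
  e ≠ f ∧ ∃ t, x e.1 < t ∧ t < x e.2 ∧ x f.1 < t ∧ t < x f.2 ∧ ht x y e t = ht x y f t

open Classical in
/-- PART A (crossing lemma for straight-line graphs, with `X` = set of ordered crossing pairs):
`|E| / k² ≤ 3 n / k + |X| / k⁴` for every `k ≥ 1`. -/
def StmtA : Prop :=
  ∀ (ι : Type) [Fintype ι] (x y : ι → ℝ), Function.Injective x →
    ∀ E : Finset (ι × ι), (∀ e ∈ E, x e.1 < x e.2) →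
      (∀ e ∈ E, ∀ w : ι, x e.1 < x w → x w < x e.2 → y w ≠ ht x y e (x w)) →
      ∀ k : ℕ, 1 ≤ k →
        k ^ 2 * E.card ≤ 3 * k ^ 3 * Fintype.card ι +
          ((E ×ˢ E).filter fun p => Crs x y p.1 p.2).card

/-- Collinearity of three indexed points. -/
def Col {ι : Type*} (x y : ι → ℝ) (i j k : ι) : Prop :=
  (x j - x i) * (y k - y i) = (x k - x i) * (y j - y i)

open Classical in
/-- The connecting line through `i` and `j` (as a set of indices). -/
noncomputable def ln {ι : Type*} [Fintype ι] (x y : ι → ℝ) (i j : ι) : Finset ι :=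
  Finset.univ.filter fun k => Col x y i j k

/-- `A` is an even set: every connecting line contains an even number of points of `A`. -/
def EvenSet {ι : Type*} [Fintype ι] [DecidableEq ι] (x y : ι → ℝ) (A : Finset ι) : Prop :=
  ∀ i j, i ≠ j → Even (A ∩ ln x y i j).card

/-- PART B: nonempty even sets contain a positive proportion of the points. -/
def StmtB : Prop :=
  ∃ C : ℕ, ∀ (ι : Type) [Fintype ι] [DecidableEq ι] (x y : ι → ℝ), Function.Injective x →
    (∃ i j k, ¬ Col x y i j k) →
    ∀ A : Finset ι, A.Nonempty → EvenSet x y A → Fintype.card ι ≤ C * A.card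

/-- PART C: there are boundedly many even sets, if each nonempty one has at least `n / C`
points. -/
def StmtC : Prop :=
  ∀ C : ℕ, ∀ (ι : Type) [Fintype ι] [DecidableEq ι] (x y : ι → ℝ), Function.Injective x →
    (∀ A : Finset ι, A.Nonempty → EvenSet x y A → Fintype.card ι ≤ C * A.card) →
    ∀ 𝒜 : Finset (Finset ι), (∀ A ∈ 𝒜, EvenSet x y A) → 𝒜.card ≤ 2 ^ (2 * C)

end Pool.Agent.R94.LS
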