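import Pool.Agent.R94.LS.Stm

set_option autoImplicit false

/-! PART C: labels. -/

namespace Pool.Agent.R94.LS

open Finset

section

variable {ι : Type} [Fintype ι] [DecidableEq ι] (x y : ι → ℝ)

/-- The type of even sets. -/
abbrev KT : Type := {A : Finset ι // EvenSet x y A}

/-- The indicator of `i` as a function on even sets. -/
def ind (i : ι) : KT x y → ZMod 2 := fun A => if i ∈ A.1 then 1 else 0

/-- The parity of the number of points of the even set to the right of `i`. -/
noncomputable def cp (i : ι) : KT x y → ZMod 2 :=
  fun A => ((A.1.filter fun k => x i < x k).card : ZMod 2)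

theorem mem_ln (i j k : ι) : k ∈ ln x y i j ↔ Col x y i j k := by
  classical
  simp [ln]

theorem self_mem_ln (i j : ι) : i ∈ ln x y i j := by
  rw [mem_ln, Col]
  ring

theorem mem_ln_iff (hx : Function.Injective x) {i j k : ι} (hij : i ≠ j) :
    k ∈ ln x y i j ↔ y k - y i = (y j - y i) / (x j - x i) * (x k - x i) := by
  have h : x j - x i ≠ 0 := sub_ne_zero.2 (hx.ne hij.symm)
  rw [mem_ln, Col, div_mul_eq_mul_div, eq_div_iff h]
  constructor
  · intro e
    linear_combination e
  · intro e
    linear_combination e

theorem key1 (hx : Function.Injective x) (i : ι) (a : ℝ) :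
    ∃ N : ℕ, ∀ A : KT x y,
      (((A.1.filter fun k => y i - a * x i < y k - a * x k).card : ZMod 2) +
        ((A.1.filter fun k => y i - a * x i = y k - a * x k ∧ x i < x k).card : ZMod 2)) =
      cp x y i A + N * ind x y i A := by
  classical
  let sl : ι → ℝ := fun k => (y k - y i) / (x k - x i)
  let S : Finset ℝ := (univ.filter fun k => k ≠ i ∧ sl k < a).image sl
  refine ⟨S.card, fun A => ?_⟩
  have hsl : ∀ k, k ≠ i → sl k * (x k - x i) = y k - y i := by
    intro k hk
    have h : x k - x i ≠ 0 := sub_ne_zero.2 (hx.ne hk)
    exact div_mul_cancel₀ _ h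
  -- the number of points of `A` of slope less than `a`
  have h1 : ((A.1.filter fun k => k ≠ i ∧ sl k < a).card : ZMod 2) = S.card * ind x y i A := by
    have e1 : (A.1.filter fun k => k ≠ i ∧ sl k < a).card =
        ∑ σ ∈ S, ((A.1.filter fun k => k ≠ i ∧ sl k < a).filter fun k => sl k = σ).card := by
      apply card_eq_sum_card_fiberwise
      intro k hk
      simp only [coe_filter, Set.mem_ofPred_eq] at hk
      simp only [S, coe_image, Set.mem_image, coe_filter, mem_univ, true_and, Set.mem_ofPred_eq]
      exact ⟨k, hk.2, rfl⟩
    rw [e1, Nat.cast_sum]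
    have e2 : ∀ σ ∈ S, ((((A.1.filter fun k => k ≠ i ∧ sl k < a).filter
        fun k => sl k = σ).card : ℕ) : ZMod 2) = ind x y i A := by
      intro σ hσ
      simp only [S, mem_image, mem_filter, mem_univ, true_and] at hσ
      obtain ⟨k0, ⟨hk0, hk0a⟩, hk0σ⟩ := hσ
      have e3 : ((A.1.filter fun k => k ≠ i ∧ sl k < a).filter fun k => sl k = σ) =
          (A.1 ∩ ln x y i k0).erase i := by
        ext k
        simp only [mem_filter, mem_erase, mem_inter]
        constructor
        · rintro ⟨⟨hkA, hki, hka⟩, hkσ⟩
          refine ⟨hki, hkA, ?_⟩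
          rw [mem_ln_iff x y hx hk0.symm]
          have : (y k0 - y i) / (x k0 - x i) = sl k := by
            show sl k0 = sl k
            rw [hk0σ, hkσ]
          rw [this, hsl k hki]
        · rintro ⟨hki, hkA, hkl⟩
          rw [mem_ln_iff x y hx hk0.symm] at hkl
          have h5 : sl k = σ := by
            have h : x k - x i ≠ 0 := sub_ne_zero.2 (hx.ne hki)
            show (y k - y i) / (x k - x i) = σ
            rw [div_eq_iff h, hkl, ← hk0σ]
          exact ⟨⟨hkA, hki, by rw [h5, ← hk0σ]; exact hk0a⟩, h5⟩
      rw [e3]
      have hev := A.2 i k0 hk0.symm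
      by_cases hiA : i ∈ A.1
      · have hmem : i ∈ A.1 ∩ ln x y i k0 := mem_inter.2 ⟨hiA, self_mem_ln x y i k0⟩
        have hc := card_erase_add_one hmem
        simp only [ind, hiA, if_true]
        obtain ⟨m, hm⟩ := hev
        have h6 : (((A.1 ∩ ln x y i k0).erase i).card : ZMod 2) + 1 = 0 := by
          have : ((((A.1 ∩ ln x y i k0).erase i).card + 1 : ℕ) : ZMod 2) = ((m + m : ℕ) : ZMod 2) := by
            rw [hc, hm]
          push_cast at this
          rw [this]
          exact CharTwo.add_self_eq_zero _
        have h7 : (1 : ZMod 2) + 1 = 0 := by decide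
        linear_combination h6 - h7
      · have hmem : i ∉ A.1 ∩ ln x y i k0 := fun h => hiA (mem_inter.1 h).1
        rw [erase_eq_of_notMem hmem]
        simp only [ind, hiA, if_false]
        obtain ⟨m, hm⟩ := hev
        rw [hm]
        push_cast
        exact CharTwo.add_self_eq_zero _
    rw [sum_congr rfl e2, sum_const, nsmul_eq_mul]
  rw [← h1]
  -- compare the indicator functions
  have h2 : ∀ (p : ι → Prop) [DecidablePred p], ((A.1.filter p).card : ZMod 2) =
      ∑ k ∈ A.1, if p k then (1 : ZMod 2) else 0 := by
    intro p _
    rw [card_filter]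
    push_cast
    rfl
  unfold cp
  rw [h2, h2, h2, h2, ← sum_add_distrib, ← sum_add_distrib]
  apply sum_congr rfl
  intro k _
  by_cases hki : k = i
  · subst hki
    simp
  · have hs := hsl k hki
    have hd : x k - x i ≠ 0 := sub_ne_zero.2 (hx.ne hki)
    have key : y k - a * x k - (y i - a * x i) = (sl k - a) * (x k - x i) := by
      linear_combination -hs
    rcases lt_or_gt_of_ne (hx.ne hki) with hlt | hgt
    · -- x k < x i
      have h3 : ¬ x i < x k := not_lt.2 hlt.le
      simp only [h3, and_false, if_false, add_zero, zero_add, ne_eq, hki, not_false_eq_true,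
        true_and]
      have h4 : (y i - a * x i < y k - a * x k) ↔ sl k < a := by
        constructor
        · intro h
          by_contra hc
          have : (sl k - a) * (x k - x i) ≤ 0 :=
            mul_nonpos_of_nonneg_of_nonpos (by linarith) (by linarith)
          linarith
        · intro h
          have : 0 < (sl k - a) * (x k - x i) := mul_pos_of_neg_of_neg (by linarith) (by linarith)
          linarith
      by_cases h5 : sl k < a
      · simp [h4.2 h5, h5]
      · simp [mt h4.1 h5, h5]
    · have h3 : x i < x k := hgt
      simp only [h3, and_true, if_true, ne_eq, hki, not_false_eq_true, true_and]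
      rcases lt_trichotomy (sl k) a with h5 | h5 | h5
      · have h6 : ¬ (y i - a * x i < y k - a * x k) := by
          have : (sl k - a) * (x k - x i) < 0 := mul_neg_of_neg_of_pos (by linarith) (by linarith)
          linarith
        have h7 : ¬ (y i - a * x i = y k - a * x k) := by
          have : (sl k - a) * (x k - x i) < 0 := mul_neg_of_neg_of_pos (by linarith) (by linarith)
          intro h
          linarith
        simp only [h6, h7, h5, if_true, if_false]
        decide
      · have h6 : y i - a * x i = y k - a * x k := by
          have : (sl k - a) * (x k - x i) = 0 := by rw [h5]; ring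
          linarith
        have h7 : ¬ (y i - a * x i < y k - a * x k) := by
          rw [h6]; exact lt_irrefl _
        have h8 : ¬ sl k < a := by rw [h5]; exact lt_irrefl _
        simp only [h6, h8, if_true, if_false, lt_irrefl]
        norm_num
      · have h6 : (y i - a * x i < y k - a * x k) := by
          have : 0 < (sl k - a) * (x k - x i) := mul_pos (by linarith) (by linarith)
          linarith
        have h7 : ¬ (y i - a * x i = y k - a * x k) := ne_of_lt h6
        have h8 : ¬ sl k < a := not_lt.2 h5.le
        simp only [h6, h7, h8, if_true, if_false]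

open Classical in
/-- Telescoping. -/
theorem tele (hx : Function.Injective x) (z W : KT x y → ZMod 2) (S : Finset ι) :
    ∑ r ∈ S, ((if z = fun A => W A + ((A.1 ∩ S).filter fun k => x r < x k).card then
        (1 : ZMod 2) else 0) +
      (if z = fun A => W A + ((A.1 ∩ S).filter fun k => x r < x k).card + ind x y r A then
        (1 : ZMod 2) else 0)) =
      (if z = W then (1 : ZMod 2) else 0) +
      (if z = fun A => W A + ((A.1 ∩ S).card : ZMod 2) then (1 : ZMod 2) else 0) := by
  refine Finset.induction_on_min_value x S ?_ ?_
  ·
    simp only [sum_empty, inter_empty, card_empty, Nat.cast_zero, add_zero]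
    rw [show (fun A => W A) = W from rfl]
    exact (CharTwo.add_self_eq_zero _).symm
  · intro a S ha hmin ih
    have hlt : ∀ r ∈ S, x a < x r := fun r hr =>
      lt_of_le_of_ne (hmin r hr) (hx.ne (fun h => ha (h ▸ hr)))
    rw [sum_insert ha]
    have e1 : ∀ r ∈ S, ∀ A : KT x y, ((A.1 ∩ insert a S).filter fun k => x r < x k) =
        ((A.1 ∩ S).filter fun k => x r < x k) := by
      intro r hr A
      ext k
      simp only [mem_filter, mem_inter, mem_insert]
      constructor
      · rintro ⟨⟨h1, h2⟩, h3⟩
        rcases h2 with rfl | h2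
        · exact absurd h3 (not_lt.2 (hlt r hr).le)
        · exact ⟨⟨h1, h2⟩, h3⟩
      · rintro ⟨⟨h1, h2⟩, h3⟩
        exact ⟨⟨h1, Or.inr h2⟩, h3⟩
    have e2 : ∀ A : KT x y, ((A.1 ∩ insert a S).filter fun k => x a < x k) = A.1 ∩ S := by
      intro A
      ext k
      simp only [mem_filter, mem_inter, mem_insert]
      constructor
      · rintro ⟨⟨h1, h2⟩, h3⟩
        rcases h2 with rfl | h2
        · exact absurd h3 (lt_irrefl _)
        · exact ⟨h1, h2⟩
      · rintro ⟨h1, h2⟩
        exact ⟨⟨h1, Or.inr h2⟩, hlt k h2⟩
    have e3 : ∀ A : KT x y, (((A.1 ∩ insert a S).card : ℕ) : ZMod 2) =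
        ((A.1 ∩ S).card : ZMod 2) + ind x y a A := by
      intro A
      by_cases haA : a ∈ A.1
      · rw [inter_insert_of_mem haA, card_insert_of_notMem
          (fun h => ha (mem_inter.1 h).2)]
        simp [ind, haA]
      · rw [inter_insert_of_notMem haA]
        simp [ind, haA]
    have e4 : ∑ r ∈ S, ((if z = fun A => W A +
          ((A.1 ∩ insert a S).filter fun k => x r < x k).card then (1 : ZMod 2) else 0) +
        (if z = fun A => W A + ((A.1 ∩ insert a S).filter fun k => x r < x k).card +
          ind x y r A then (1 : ZMod 2) else 0)) =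
        ∑ r ∈ S, ((if z = fun A => W A + ((A.1 ∩ S).filter fun k => x r < x k).card then
          (1 : ZMod 2) else 0) +
        (if z = fun A => W A + ((A.1 ∩ S).filter fun k => x r < x k).card + ind x y r A then
          (1 : ZMod 2) else 0)) := by
      apply sum_congr rfl
      intro r hr
      have : ∀ A : KT x y, (((A.1 ∩ insert a S).filter fun k => x r < x k).card : ZMod 2) =
        (((A.1 ∩ S).filter fun k => x r < x k).card : ZMod 2) := by
        intro A; rw [e1 r hr A]
      simp only [this]
    rw [e4, ih]
    simp only [e2, e3]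
    have h2 : ∀ u : ZMod 2, u + u = 0 := fun u => CharTwo.add_self_eq_zero u
    have h3 := h2 (if z = fun A => W A + ((A.1 ∩ S).card : ZMod 2) then (1 : ZMod 2) else 0)
    have h4 : (fun A : KT x y => W A + (((A.1 ∩ S).card : ZMod 2) + ind x y a A)) =
      fun A : KT x y => W A + ((A.1 ∩ S).card : ZMod 2) + ind x y a A := by
      funext A; ring
    rw [h4]
    linear_combination h3

open Classical in
/-- The set of points adjacent to the label `z`. -/
noncomputable def Az (z : KT x y → ZMod 2) : Finset ι :=
  univ.filter fun i => ind x y i ≠ 0 ∧ (z = cp x y i ∨ z = cp x y i + ind x y i)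

theorem Az_even (hx : Function.Injective x) (z : KT x y → ZMod 2) : EvenSet x y (Az x y z) := by
  classical
  intro i j hij
  set L := ln x y i j with hL
  set a := (y j - y i) / (x j - x i) with ha
  -- all points of the line have the same value of `y - a x`
  have hlin : ∀ k, k ∈ L ↔ y i - a * x i = y k - a * x k := by
    intro k
    rw [hL, mem_ln_iff x y hx hij]
    constructor
    · intro h
      linear_combination -h
    · intro h
      linear_combination -h
  let W : KT x y → ZMod 2 := fun A => ((A.1.filter fun k => y i - a * x i < y k - a * x k).card : ZMod 2)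
  have h1 := tele x y hx z W L
  have h2 : (fun A : KT x y => W A + ((A.1 ∩ L).card : ZMod 2)) = W := by
    funext A
    have := A.2 i j hij
    obtain ⟨m, hm⟩ := this
    rw [← hL] at hm
    rw [hm]
    push_cast
    rw [CharTwo.add_self_eq_zero, add_zero]
  rw [h2, CharTwo.add_self_eq_zero] at h1
  have h3 : ((Az x y z ∩ L).card : ZMod 2) = 0 := by
    rw [← h1]
    have e1 : Az x y z ∩ L = L.filter fun r => ind x y r ≠ 0 ∧
        (z = cp x y r ∨ z = cp x y r + ind x y r) := by
      ext r
      simp only [Az, mem_inter, mem_filter, mem_univ, true_and]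
      tauto
    rw [e1, card_filter]
    push_cast
    apply sum_congr rfl
    intro r hr
    obtain ⟨N, hN⟩ := key1 x y hx r a
    have hri := (hlin r).1 hr
    have hN' : (fun A : KT x y => W A + (((A.1 ∩ L).filter fun k => x r < x k).card : ZMod 2)) =
        cp x y r + (N : ZMod 2) • ind x y r := by
      funext A
      have := hN A
      rw [← hri] at this
      have e5 : ((A.1 ∩ L).filter fun k => x r < x k) =
          A.1.filter fun k => y i - a * x i = y k - a * x k ∧ x r < x k := by
        ext k
        simp only [mem_filter, mem_inter]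
        rw [hlin k]
        tauto
      rw [e5]
      simp only [Pi.add_apply, Pi.smul_apply, smul_eq_mul]
      exact this
    have hN2 : (fun A : KT x y => W A + (((A.1 ∩ L).filter fun k => x r < x k).card : ZMod 2) +
        ind x y r A) = cp x y r + (N : ZMod 2) • ind x y r + ind x y r := by
      rw [← hN']
      rfl
    rw [hN', hN2]
    have hI : ind x y r + ind x y r = 0 := by
      funext A
      exact CharTwo.add_self_eq_zero _
    rcases Nat.even_or_odd N with ⟨m, hm⟩ | ⟨m, hm⟩
    · have hz : (N : ZMod 2) = 0 := by
        rw [hm]; push_cast; exact CharTwo.add_self_eq_zero _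
      rw [hz, zero_smul, add_zero]
      by_cases h0 : ind x y r = 0
      · rw [h0, add_zero]
        simp only [ne_eq, not_true_eq_false, false_and, if_false]
        exact (CharTwo.add_self_eq_zero _).symm
      · simp only [ne_eq, h0, not_false_eq_true, true_and]
        by_cases c1 : z = cp x y r
        · have c2 : ¬ z = cp x y r + ind x y r := by
            intro h
            apply h0
            rw [c1] at h
            exact (left_eq_add.1 h)
          simp [c1, h0]
        · by_cases c2 : z = cp x y r + ind x y r
          · simp [c2, h0]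
          · simp [c1, c2]
    · have hz : (N : ZMod 2) = 1 := by
        rw [hm]; push_cast
        have : (2 : ZMod 2) = 0 := by decide
        rw [this]; ring
      rw [hz, one_smul]
      have h5 : cp x y r + ind x y r + ind x y r = cp x y r := by
        rw [add_assoc, hI, add_zero]
      rw [h5]
      by_cases h0 : ind x y r = 0
      · rw [h0, add_zero]
        simp only [ne_eq, not_true_eq_false, false_and, if_false]
        exact (CharTwo.add_self_eq_zero _).symm
      · simp only [ne_eq, h0, not_false_eq_true, true_and]
        by_cases c1 : z = cp x y r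
        · simp [c1, h0]
        · by_cases c2 : z = cp x y r + ind x y r
          · simp [c2, h0]
          · simp [c1, c2]
  rwa [ZMod.natCast_eq_zero_iff_even] at h3

end

theorem stmtC : StmtC := by
  intro C ι _ _ x y hx hC 𝒜 h𝒜
  classical
  rcases isEmpty_or_nonempty ι with hι | hι
  · have : 𝒜 ⊆ {∅} := by
      intro A _
      rw [mem_singleton]
      exact Finset.eq_empty_of_isEmpty A
    calc 𝒜.card ≤ ({∅} : Finset (Finset ι)).card := card_le_card this
      _ = 1 := card_singleton _
      _ ≤ 2 ^ (2 * C) := Nat.one_le_two_pow
  let I : Finset ι := univ.filter fun i => ind x y i ≠ 0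
  let Y : Finset (KT x y → ZMod 2) := I.image (cp x y) ∪ I.image (fun i => cp x y i + ind x y i)
  have hY : Y.card ≤ 2 * C := by
    have h1 : ∀ z ∈ Y, Fintype.card ι ≤ C * (Az x y z).card := by
      intro z hz
      apply hC _ _ (Az_even x y hx z)
      rw [mem_union, mem_image, mem_image] at hz
      rcases hz with ⟨i, hi, hz⟩ | ⟨i, hi, hz⟩
      · refine ⟨i, ?_⟩
        rw [Az, mem_filter]
        exact ⟨mem_univ _, (mem_filter.1 hi).2, Or.inl hz.symm⟩
      · refine ⟨i, ?_⟩
        rw [Az, mem_filter]
        exact ⟨mem_univ _, (mem_filter.1 hi).2, Or.inr hz.symm⟩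
    have h2 : ∑ z ∈ Y, (Az x y z).card ≤ 2 * Fintype.card ι := by
      have e1 : ∀ z ∈ Y, (Az x y z).card = ∑ i : ι, if i ∈ Az x y z then 1 else 0 := by
        intro z _
        rw [sum_ite_mem, univ_inter, sum_const, smul_eq_mul, mul_one]
      rw [sum_congr rfl e1, sum_comm]
      have e2 : ∀ i : ι, ∑ z ∈ Y, (if i ∈ Az x y z then 1 else 0) ≤ 2 := by
        intro i
        rw [← card_filter]
        have : Y.filter (fun z => i ∈ Az x y z) ⊆ {cp x y i, cp x y i + ind x y i} := by
          intro z hz
          rw [mem_filter, Az, mem_filter] at hz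
          rw [mem_insert, mem_singleton]
          exact hz.2.2.2
        exact (card_le_card this).trans card_le_two
      calc ∑ i : ι, ∑ z ∈ Y, (if i ∈ Az x y z then 1 else 0) ≤ ∑ _i : ι, 2 :=
            sum_le_sum fun i _ => e2 i
        _ = 2 * Fintype.card ι := by
            rw [sum_const, smul_eq_mul, card_univ, mul_comm]
    have h3 : Y.card * Fintype.card ι ≤ C * (2 * Fintype.card ι) := by
      calc Y.card * Fintype.card ι = ∑ _z ∈ Y, Fintype.card ι := by
            rw [sum_const, smul_eq_mul]
        _ ≤ ∑ z ∈ Y, C * (Az x y z).card := sum_le_sum h1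
        _ = C * ∑ z ∈ Y, (Az x y z).card := by rw [mul_sum]
        _ ≤ C * (2 * Fintype.card ι) := Nat.mul_le_mul_left _ h2
    have hpos : 0 < Fintype.card ι := Fintype.card_pos
    have h4 : Y.card * Fintype.card ι ≤ (2 * C) * Fintype.card ι := by
      calc _ ≤ _ := h3
        _ = _ := by ring
    exact Nat.le_of_mul_le_mul_right h4 hpos
  -- the injection
  let g : KT x y → (Y → ZMod 2) := fun A z => z.1 A
  have hg : Function.Injective g := by
    intro A B hAB
    apply Subtype.ext
    ext i
    by_cases hi : ind x y i = 0
    · have h1 := congrFun hi A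
      have h2 := congrFun hi B
      simp only [ind, Pi.zero_apply, ite_eq_right_iff, one_ne_zero, imp_false] at h1 h2
      tauto
    · have hiI : i ∈ I := mem_filter.2 ⟨mem_univ _, hi⟩
      have m1 : cp x y i ∈ Y := mem_union_left _ (mem_image_of_mem _ hiI)
      have m2 : cp x y i + ind x y i ∈ Y :=
        mem_union_right _ (mem_image.2 ⟨i, hiI, rfl⟩)
      have q1 : cp x y i A = cp x y i B := congrFun hAB ⟨_, m1⟩
      have q2 : (cp x y i + ind x y i) A = (cp x y i + ind x y i) B := congrFun hAB ⟨_, m2⟩
      simp only [Pi.add_apply] at q2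
      rw [q1] at q2
      have q3 : ind x y i A = ind x y i B := add_left_cancel q2
      simp only [ind] at q3
      by_cases a1 : i ∈ A.1 <;> by_cases a2 : i ∈ B.1 <;> simp [a1, a2] at q3 ⊢
  have h5 : 𝒜.card ≤ Fintype.card (KT x y) := by
    have : 𝒜.card = (𝒜.attach.image fun A => (⟨A.1, h𝒜 A.1 A.2⟩ : KT x y)).card := by
      rw [card_image_of_injective, card_attach]
      intro A B h
      apply Subtype.ext
      simpa using h
    rw [this]
    exact card_le_univ _
  have h6 : Fintype.card (KT x y) ≤ 2 ^ Y.card := by
    have := Fintype.card_le_of_injective g hg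
    rwa [Fintype.card_fun, ZMod.card, Fintype.card_coe] at this
  calc 𝒜.card ≤ 2 ^ Y.card := h5.trans h6
    _ ≤ 2 ^ (2 * C) := Nat.pow_le_pow_right (by norm_num) hY

end Pool.Agent.R94.LS
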