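import Mathlib

set_option autoImplicit false

/-! The covering radius of a binary code is at most the dimension of its dual code. -/

namespace Pool.Agent.R94.LS

open Finset

variable {ι : Type} [Fintype ι] [DecidableEq ι]

/-- Indicator vector. -/
def iv (L : Finset ι) : ι → ZMod 2 := fun i => if i ∈ L then 1 else 0

theorem zmod2 (u : ZMod 2) (h : u ≠ 0) : u = 1 := by
  revert u; decide

theorem covering (𝓛 : Set (Finset ι)) (D : ℕ)
    (hD : ∀ 𝒜 : Finset (Finset ι), (∀ A ∈ 𝒜, ∀ L ∈ 𝓛, Even (A ∩ L).card) → 𝒜.card ≤ 2 ^ D)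
    (b : ι → ZMod 2) :
    ∃ v ∈ Submodule.span (ZMod 2) (iv '' 𝓛), (univ.filter fun i => b i + v i ≠ 0).card ≤ D := by
  classical
  set C := Submodule.span (ZMod 2) (iv '' 𝓛) with hC
  -- a vector of `C` minimising the weight
  obtain ⟨v, hv, hmin⟩ : ∃ v ∈ C, ∀ u ∈ C, (univ.filter fun i => b i + v i ≠ 0).card ≤
      (univ.filter fun i => b i + u i ≠ 0).card := by
    obtain ⟨v, hv, hmin⟩ := Set.exists_min_image (C : Set (ι → ZMod 2))
      (fun u => (univ.filter fun i => b i + u i ≠ 0).card) (Set.toFinite _) ⟨0, C.zero_mem⟩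
    exact ⟨v, hv, hmin⟩
  refine ⟨v, hv, ?_⟩
  set M := univ.filter fun i => b i + v i ≠ 0 with hM
  by_contra hlt
  push Not at hlt
  -- the dual code
  let K : Submodule (ZMod 2) (ι → ZMod 2) :=
    { carrier := {f | ∀ L ∈ 𝓛, ∑ k ∈ L, f k = 0}
      add_mem' := by
        intro f g hf hg L hL
        simp only [Pi.add_apply, sum_add_distrib]
        rw [hf L hL, hg L hL, add_zero]
      zero_mem' := by
        intro L _
        simp
      smul_mem' := by
        intro c f hf L hL
        simp only [Pi.smul_apply, smul_eq_mul, ← mul_sum]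
        rw [hf L hL, mul_zero] }
  have hKcard : Fintype.card K ≤ 2 ^ D := by
    let g : K → Finset ι := fun f => univ.filter fun i => f.1 i ≠ 0
    have hg : Function.Injective g := by
      intro f f' h
      apply Subtype.ext
      funext i
      have : i ∈ g f ↔ i ∈ g f' := by rw [h]
      simp only [g, mem_filter, mem_univ, true_and] at this
      by_cases h1 : f.1 i = 0
      · have h2 : f'.1 i = 0 := by
          by_contra h2
          exact this.2 h2 h1
        rw [h1, h2]
      · rw [zmod2 _ h1, zmod2 _ (this.1 h1)]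
    have h1 := hD (univ.image g) (by
      intro A hA L hL
      rw [mem_image] at hA
      obtain ⟨f, _, rfl⟩ := hA
      rw [← ZMod.natCast_eq_zero_iff_even]
      have h2 := f.2 L hL
      rw [← h2]
      have h3 : (g f ∩ L) = L.filter fun i => f.1 i ≠ 0 := by
        ext i
        simp only [g, mem_inter, mem_filter, mem_univ, true_and]
        tauto
      rw [h3, card_filter]
      push_cast
      apply sum_congr rfl
      intro i _
      by_cases h4 : f.1 i = 0
      · simp [h4]
      · rw [if_pos h4, zmod2 _ h4])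
    rwa [card_image_of_injective _ hg, card_univ] at h1
  -- the restriction map
  let R : K →ₗ[ZMod 2] (M → ZMod 2) :=
    { toFun := fun f i => f.1 i.1
      map_add' := by intro f g; rfl
      map_smul' := by intro c f; rfl }
  have hR : LinearMap.range R ≠ ⊤ := by
    intro h
    have hs : Function.Surjective R := LinearMap.range_eq_top.1 h
    have h1 := Fintype.card_le_of_surjective R hs
    rw [Fintype.card_fun, ZMod.card, Fintype.card_coe] at h1
    have h2 : 2 ^ M.card ≤ 2 ^ D := h1.trans hKcard
    have h3 := (Nat.pow_le_pow_iff_right (by norm_num : 1 < 2)).1 h2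
    omega
  obtain ⟨φ, hφ0, hφ⟩ := Submodule.exists_dual_map_eq_bot_of_lt_top (lt_top_iff_ne_top.2 hR)
    inferInstance
  have hφR : ∀ f : K, φ (R f) = 0 := by
    intro f
    have : φ (R f) ∈ (LinearMap.range R).map φ :=
      Submodule.mem_map_of_mem (LinearMap.mem_range_self R f)
    rw [hφ] at this
    exact (Submodule.mem_bot _).1 this
  let z : ι → ZMod 2 := fun i => if h : i ∈ M then φ (Pi.single ⟨i, h⟩ 1) else 0
  -- `φ` as a sum
  have hφs : ∀ u : M → ZMod 2, φ u = ∑ i : M, u i * φ (Pi.single i 1) := by
    intro u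
    conv_lhs => rw [pi_eq_sum_univ' u]
    rw [map_sum]
    apply sum_congr rfl
    intro i _
    rw [map_smul, smul_eq_mul]
  have hzφ : ∀ f : ι → ZMod 2, ∑ i, z i * f i = φ (fun i : M => f i.1) := by
    intro f
    rw [hφs]
    have h1 : ∑ i, z i * f i = ∑ i ∈ M, z i * f i := by
      symm
      apply sum_subset (subset_univ _)
      intro i _ hi
      simp only [z, dif_neg hi, zero_mul]
    rw [h1, ← sum_coe_sort M]
    apply sum_congr rfl
    intro i _
    simp only [z, dif_pos i.2]
    ring
  have hz0 : ∃ i ∈ M, z i ≠ 0 := by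
    by_contra h
    push Not at h
    apply hφ0
    apply LinearMap.ext
    intro u
    rw [hφs, LinearMap.zero_apply]
    apply sum_eq_zero
    intro i _
    have := h i.1 i.2
    simp only [z, dif_pos i.2] at this
    rw [this, mul_zero]
  have hzC : z ∈ C := by
    by_contra hz
    obtain ⟨g, hg, hgC⟩ := Submodule.exists_dual_map_eq_bot_of_notMem hz inferInstance
    have hgC' : ∀ u ∈ C, g u = 0 := by
      intro u hu
      have : g u ∈ C.map g := Submodule.mem_map_of_mem hu
      rw [hgC] at this
      exact (Submodule.mem_bot _).1 this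
    have hgs : ∀ u : ι → ZMod 2, g u = ∑ i, u i * g (Pi.single i 1) := by
      intro u
      conv_lhs => rw [pi_eq_sum_univ' u]
      rw [map_sum]
      apply sum_congr rfl
      intro i _
      rw [map_smul, smul_eq_mul]
    have hK : (fun i => g (Pi.single i 1)) ∈ K := by
      intro L hL
      have h1 : g (iv L) = 0 := hgC' _ (Submodule.subset_span ⟨L, hL, rfl⟩)
      rw [hgs] at h1
      rw [← h1]
      simp only [iv, ite_mul, one_mul, zero_mul]
      rw [sum_ite_mem, univ_inter]
    apply hg
    rw [hgs]
    have := hzφ (fun i => g (Pi.single i 1))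
    rw [this]
    exact hφR ⟨_, hK⟩
  -- contradiction with minimality
  have h1 := hmin (v + z) (C.add_mem hv hzC)
  have h2 : (univ.filter fun i => b i + (v + z) i ≠ 0) ⊂ M := by
    rw [ssubset_iff_of_subset]
    · obtain ⟨i, hiM, hzi⟩ := hz0
      refine ⟨i, hiM, ?_⟩
      simp only [mem_filter, mem_univ, true_and, not_not, Pi.add_apply]
      have h3 := zmod2 _ (mem_filter.1 hiM).2
      have h4 := zmod2 _ hzi
      rw [← add_assoc, h3, h4]
      decide
    · intro i hi
      simp only [mem_filter, mem_univ, true_and, Pi.add_apply] at hi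
      by_contra hiM
      have hz : z i = 0 := by simp only [z, dif_neg hiM]
      rw [hz, add_zero] at hi
      exact hiM (mem_filter.2 ⟨mem_univ _, hi⟩)
  exact absurd (card_lt_card h2) (not_lt.2 h1)

end Pool.Agent.R94.LS
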