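import Pool.Agent.R94.LS.C
import Pool.Agent.R94.LS.D

set_option autoImplicit false

/-! Assembly for MP_f8f66f_co. -/

namespace Pool.Agent.R94.LS

open Finset

/-- `ℓ` is a connecting line of `P`. -/
def IsConnecting (P : Finset (ℝ × ℝ)) (ℓ : AffineSubspace ℝ (ℝ × ℝ)) : Prop :=
  ∃ p ∈ P, ∃ q ∈ P, p ≠ q ∧ ℓ = line[ℝ, p, q]

/-- Weight assignments `P → {+1, -1}`. -/
abbrev Weight (P : Finset (ℝ × ℝ)) : Type := P → ℤˣ

open Classical in
/-- The weight assignment after the switch along `ℓ`. -/
noncomputable def switch (P : Finset (ℝ × ℝ)) (ℓ : AffineSubspace ℝ (ℝ × ℝ)) (w : Weight P) :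
    Weight P :=
  fun p => if (p : ℝ × ℝ) ∈ ℓ then - w p else w p

/-- `Reachable P w₀ w`: the assignment `w` arises from `w₀` by a finite sequence of switches along
connecting lines. -/
inductive Reachable (P : Finset (ℝ × ℝ)) (w₀ : Weight P) : Weight P → Prop
  | refl : Reachable P w₀ w₀
  | step (w : Weight P) (ℓ : AffineSubspace ℝ (ℝ × ℝ)) :
      Reachable P w₀ w → IsConnecting P ℓ → Reachable P w₀ (switch P ℓ w)

/-- The signed discrepancy. -/
def disc (P : Finset (ℝ × ℝ)) (w : Weight P) : ℤ := ∑ p, (w p : ℤ)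

/-- `F(P, w₀)`, the maximum of the discrepancies of the reachable assignments. -/
noncomputable def F₀ (P : Finset (ℝ × ℝ)) (w₀ : Weight P) : ℤ :=
  sSup {s : ℤ | ∃ w, Reachable P w₀ w ∧ disc P w = s}

/-- `F(P)`, the minimum of `F(P, w₀)` over all `w₀`. -/
noncomputable def F (P : Finset (ℝ × ℝ)) : ℤ := sInf (Set.range (F₀ P))

theorem disc_le (P : Finset (ℝ × ℝ)) (w : Weight P) : disc P w ≤ P.card := by
  unfold disc
  calc ∑ p, (w p : ℤ) ≤ ∑ _p : P, (1 : ℤ) := by
        apply sum_le_sum
        intro p _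
        rcases Int.units_eq_one_or (w p) with h | h <;> simp [h]
    _ = P.card := by simp

/-- The shear. -/
theorem exists_shear (P : Finset (ℝ × ℝ)) :
    ∃ ε : ℝ, Function.Injective (fun p : P => p.1.1 + ε * p.1.2) := by
  classical
  -- the bad values
  let B : Finset ℝ := (P ×ˢ P).image fun pq => -(pq.1.1 - pq.2.1) / (pq.1.2 - pq.2.2)
  obtain ⟨ε, hε⟩ := Infinite.exists_notMem_finset B
  refine ⟨ε, fun p q h => ?_⟩
  simp only at h
  by_cases h2 : p.1.2 = q.1.2
  · apply Subtype.ext
    apply Prod.ext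
    · rw [h2] at h; linarith
    · exact h2
  · exfalso
    apply hε
    rw [mem_image]
    refine ⟨(p.1, q.1), mem_product.2 ⟨p.2, q.2⟩, ?_⟩
    have : p.1.2 - q.1.2 ≠ 0 := sub_ne_zero.2 h2
    rw [div_eq_iff this]
    linarith

theorem mem_line_iff (p q r : ℝ × ℝ) (hpq : p ≠ q) :
    r ∈ line[ℝ, p, q] ↔ (q.1 - p.1) * (r.2 - p.2) = (r.1 - p.1) * (q.2 - p.2) := by
  rw [mem_affineSpan_pair_iff_exists_lineMap_eq]
  constructor
  · rintro ⟨t, rfl⟩
    simp only [AffineMap.lineMap_apply, vsub_eq_sub, vadd_eq_add, Prod.fst_add, Prod.snd_add,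
      Prod.smul_fst, Prod.smul_snd, Prod.fst_sub, Prod.snd_sub, smul_eq_mul]
    ring
  · intro h
    by_cases h1 : q.1 - p.1 = 0
    · have h2 : q.2 - p.2 ≠ 0 := by
        intro h2
        apply hpq
        apply Prod.ext
        · linarith
        · linarith
      refine ⟨(r.2 - p.2) / (q.2 - p.2), ?_⟩
      have h3 : r.1 - p.1 = 0 := by
        rw [h1, zero_mul] at h
        rcases mul_eq_zero.1 h.symm with h | h
        · exact h
        · exact absurd h h2
      apply Prod.ext
      · simp only [AffineMap.lineMap_apply, vsub_eq_sub, vadd_eq_add, Prod.fst_add,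
          Prod.smul_fst, Prod.fst_sub, smul_eq_mul, h1, mul_zero, zero_add]
        linarith
      · simp only [AffineMap.lineMap_apply, vsub_eq_sub, vadd_eq_add, Prod.snd_add,
          Prod.smul_snd, Prod.snd_sub, smul_eq_mul]
        rw [div_mul_cancel₀ _ h2]
        ring
    · refine ⟨(r.1 - p.1) / (q.1 - p.1), ?_⟩
      apply Prod.ext
      · simp only [AffineMap.lineMap_apply, vsub_eq_sub, vadd_eq_add, Prod.fst_add,
          Prod.smul_fst, Prod.fst_sub, smul_eq_mul]
        rw [div_mul_cancel₀ _ h1]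
        ring
      · simp only [AffineMap.lineMap_apply, vsub_eq_sub, vadd_eq_add, Prod.snd_add,
          Prod.smul_snd, Prod.snd_sub, smul_eq_mul]
        rw [div_mul_eq_mul_div, ← h]
        field_simp
        ring

open Classical in
/-- Flip the signs on the support of `v`. -/
noncomputable def flip {P : Finset (ℝ × ℝ)} (v : P → ZMod 2) (w : Weight P) : Weight P :=
  fun p => if v p = 0 then w p else - w p

theorem flip_add {P : Finset (ℝ × ℝ)} (u v : P → ZMod 2) (w : Weight P) :
    flip (u + v) w = flip u (flip v w) := by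
  funext p
  unfold flip
  by_cases h1 : u p = 0 <;> by_cases h2 : v p = 0
  · simp [h1, h2]
  · simp [h1, h2]
  · simp [h1, h2]
  · have h3 : (u + v) p = 0 := by
      rw [Pi.add_apply, zmod2 _ h1, zmod2 _ h2]; decide
    simp [h1, h2, h3]

theorem main (hB : StmtB) : ∃ c : ℕ, ∀ P : Finset (ℝ × ℝ),
    ¬ Collinear ℝ (P : Set (ℝ × ℝ)) → (P.card : ℤ) - c ≤ F P := by
  classical
  obtain ⟨C, hC⟩ := hB
  refine ⟨2 * (2 * C), fun P hP => ?_⟩
  obtain ⟨ε, hε⟩ := exists_shear P
  set x : P → ℝ := fun p => p.1.1 + ε * p.1.2 with hx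
  set y : P → ℝ := fun p => p.1.2 with hy
  have hcol : ∀ i j k : P, Col x y i j k ↔
      (j.1.1 - i.1.1) * (k.1.2 - i.1.2) = (k.1.1 - i.1.1) * (j.1.2 - i.1.2) := by
    intro i j k
    simp only [Col, hx, hy]
    constructor
    · intro h; linear_combination h
    · intro h; linear_combination h
  have hln : ∀ i j k : P, i ≠ j → (k ∈ ln x y i j ↔ (k : ℝ × ℝ) ∈ line[ℝ, (i : ℝ × ℝ), (j : ℝ × ℝ)]) := by
    intro i j k hij
    rw [mem_ln, hcol, mem_line_iff _ _ _ (fun h => hij (Subtype.ext h))]
  -- noncollinearity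
  have hnc : ∃ i j k, ¬ Col x y i j k := by
    by_contra hcon
    push Not at hcon
    apply hP
    rcases P.eq_empty_or_nonempty with rfl | ⟨p0, hp0⟩
    · simpa using collinear_empty ℝ (ℝ × ℝ)
    · by_cases hall : ∀ q ∈ P, q = p0
      · have : (P : Set (ℝ × ℝ)) ⊆ {p0} := fun q hq => hall q hq
        exact (collinear_singleton ℝ p0).subset this
      · push Not at hall
        obtain ⟨q, hq, hqp⟩ := hall
        have : (P : Set (ℝ × ℝ)) ⊆ (line[ℝ, p0, q] : Set (ℝ × ℝ)) := by
          intro r hr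
          rw [SetLike.mem_coe, mem_line_iff _ _ _ (fun h => hqp h.symm)]
          exact (hcol ⟨p0, hp0⟩ ⟨q, hq⟩ ⟨r, hr⟩).1 (hcon _ _ _)
        rw [collinear_iff_of_mem (p₀ := p0) hp0]
        refine ⟨q - p0, fun r hr => ?_⟩
        have h1 := this hr
        rw [SetLike.mem_coe, mem_affineSpan_pair_iff_exists_lineMap_eq] at h1
        obtain ⟨t, ht⟩ := h1
        refine ⟨t, ?_⟩
        rw [← ht, AffineMap.lineMap_apply]
        rfl
  -- the number of even sets
  let 𝓛 : Set (Finset P) := {L | ∃ i j, i ≠ j ∧ L = ln x y i j}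
  have hD := covering 𝓛 (2 * C) (by
    intro 𝒜 h𝒜
    apply stmtC C P x y hε (fun A hA hE => hC P x y hε hnc A hA hE)
    intro A hA i j hij
    exact h𝒜 A hA _ ⟨i, j, hij, rfl⟩)
  -- switching
  have hsw : ∀ v ∈ Submodule.span (ZMod 2) (iv '' 𝓛), ∀ w₀ w : Weight P, Reachable P w₀ w →
      Reachable P w₀ (flip v w) := by
    intro v hv
    induction hv using Submodule.span_induction with
    | mem u hu =>
      obtain ⟨L, ⟨i, j, hij, rfl⟩, rfl⟩ := hu
      intro w₀ w hw
      have : flip (iv (ln x y i j)) w = switch P (line[ℝ, (i : ℝ × ℝ), (j : ℝ × ℝ)]) w := by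
        funext p
        unfold flip switch iv
        by_cases hp : p ∈ ln x y i j
        · rw [if_pos hp, if_neg (by decide), if_pos ((hln i j p hij).1 hp)]
        · rw [if_neg hp, if_pos rfl, if_neg (mt (hln i j p hij).2 hp)]
      rw [this]
      exact Reachable.step w _ hw ⟨i, i.2, j, j.2, fun h => hij (Subtype.ext h), rfl⟩
    | zero =>
      intro w₀ w hw
      have : flip (0 : P → ZMod 2) w = w := by
        funext p
        simp [flip]
      rwa [this]
    | add u v _ _ ihu ihv =>
      intro w₀ w hw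
      rw [flip_add]
      exact ihu _ _ (ihv _ _ hw)
    | smul a u _ ih =>
      intro w₀ w hw
      by_cases ha : a = 0
      · have : flip (a • u) w = w := by
          funext p
          simp [flip, ha]
        rwa [this]
      · rw [zmod2 a ha, one_smul]
        exact ih _ _ hw
  -- the bound
  have hF : ∀ w₀ : Weight P, (P.card : ℤ) - (2 * (2 * C) : ℕ) ≤ F₀ P w₀ := by
    intro w₀
    let b : P → ZMod 2 := fun i => if w₀ i = 1 then 0 else 1
    obtain ⟨v, hv, hcard⟩ := hD b
    have hreach := hsw v hv w₀ w₀ Reachable.refl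
    have hdisc : (P.card : ℤ) - (2 * (2 * C) : ℕ) ≤ disc P (flip v w₀) := by
      have h1 : ∀ p : P, ((flip v w₀ p : ℤˣ) : ℤ) = 1 - 2 * (if b p + v p ≠ 0 then 1 else 0) := by
        intro p
        unfold flip
        rcases Int.units_eq_one_or (w₀ p) with h | h
        · have hb : b p = 0 := by simp [b, h]
          by_cases hv0 : v p = 0
          · simp [hb, hv0, h]
          · simp [hb, hv0, h]
        · have hb : b p = 1 := by simp [b, h]
          by_cases hv0 : v p = 0
          · simp [hb, hv0, h]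
          · have hv1 := zmod2 _ hv0
            have h2 : (1 : ZMod 2) + 1 = 0 := by decide
            simp [hb, hv1, h, h2]
      unfold disc
      rw [sum_congr rfl fun p _ => h1 p, sum_sub_distrib, ← mul_sum]
      have h2 : ∑ p : P, (if b p + v p ≠ 0 then (1 : ℤ) else 0) =
          ((univ.filter fun i => b i + v i ≠ 0).card : ℤ) := by
        rw [card_filter]
        push_cast
        rfl
      rw [h2]
      simp only [sum_const, card_univ, Fintype.card_coe, nsmul_eq_mul, mul_one]
      push_cast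
      have h3 : (((univ.filter fun i => b i + v i ≠ 0).card : ℕ) : ℤ) ≤ (2 * C : ℕ) := by
        exact_mod_cast hcard
      push_cast at h3
      linarith
    refine hdisc.trans (le_csSup ?_ ⟨_, hreach, rfl⟩)
    refine ⟨P.card, ?_⟩
    rintro s ⟨w, _, rfl⟩
    exact disc_le P w
  unfold F
  apply le_csInf (Set.range_nonempty _)
  rintro _ ⟨w₀, rfl⟩
  exact hF w₀

end Pool.Agent.R94.LS
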